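import Mathlib

/-!
Homomorphism counts of cycles: trace formula, log-convexity, lower bound by the edge density.
-/

set_option autoImplicit false

namespace Pool.Agent.H59.DE

open Matrix Finset

variable {X : Type} [Fintype X] [DecidableEq X]

/-- product along a path -/
def pp (A : Matrix X X ℝ) {k : ℕ} (f : Fin (k + 1) → X) : ℝ :=
  ∏ i : Fin k, A (f i.castSucc) (f i.succ)

theorem sum_path (A : Matrix X X ℝ) (k : ℕ) : ∀ θ : X → X → ℝ,
    ∑ f : Fin (k + 1) → X, θ (f 0) (f (Fin.last k)) * pp A f =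
      ∑ x, ∑ y, θ x y * (A ^ k) x y := by
  induction k with
  | zero =>
    intro θ
    rw [← (Equiv.funUnique (Fin 1) X).symm.sum_comp]
    refine Finset.sum_congr rfl fun x _ => ?_
    simp [pp, Matrix.one_apply]
  | succ k ih =>
    intro θ
    rw [← (Fin.consEquiv (fun _ : Fin (k + 2) => X)).sum_comp, Fintype.sum_prod_type]
    refine Finset.sum_congr rfl fun x _ => ?_
    have h1 : ∀ g : Fin (k + 1) → X,
        θ ((Fin.consEquiv (fun _ : Fin (k + 2) => X)) (x, g) 0)
          ((Fin.consEquiv (fun _ : Fin (k + 2) => X)) (x, g) (Fin.last (k + 1))) *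
          pp A ((Fin.consEquiv (fun _ : Fin (k + 2) => X)) (x, g)) =
        (fun u y => θ x y * A x u) (g 0) (g (Fin.last k)) * pp A g := by
      intro g
      have h2 : pp A ((Fin.consEquiv (fun _ : Fin (k + 2) => X)) (x, g)) = A x (g 0) * pp A g := by
        unfold pp
        rw [Fin.prod_univ_succ]
        rfl
      rw [h2]
      change θ x (g (Fin.last k)) * (A x (g 0) * pp A g) = _
      ring
    rw [Finset.sum_congr rfl fun g _ => h1 g]
    refine (ih (fun u y => θ x y * A x u)).trans ?_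
    rw [Finset.sum_comm]
    refine Finset.sum_congr rfl fun y _ => ?_
    rw [pow_succ', Matrix.mul_apply, Finset.mul_sum]
    refine Finset.sum_congr rfl fun u _ => ?_
    ring

theorem sum_cycle (A : Matrix X X ℝ) (k : ℕ) :
    ∑ f : Fin (k + 1) → X, ∏ i : Fin (k + 1), A (f i) (f (i + 1)) = (A ^ (k + 1)).trace := by
  have h1 : ∀ f : Fin (k + 1) → X, ∏ i : Fin (k + 1), A (f i) (f (i + 1)) =
      (fun x y => A y x) (f 0) (f (Fin.last k)) * pp A f := by
    intro f
    rw [Fin.prod_univ_castSucc]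
    unfold pp
    rw [mul_comm]
    congr 1
    · congr 2
      exact Fin.last_add_one k
    · refine Finset.prod_congr rfl fun i _ => ?_
      congr 2
      exact Fin.coeSucc_eq_succ
  rw [Finset.sum_congr rfl fun f _ => h1 f, sum_path A k (fun x y => A y x), pow_succ', Matrix.trace,
    Finset.sum_comm]
  refine Finset.sum_congr rfl fun y _ => ?_
  rw [Matrix.diag_apply, Matrix.mul_apply]

/-- the adjacency matrix -/
noncomputable def am (W : SimpleGraph X) : Matrix X X ℝ :=
  open Classical in fun x y => if W.Adj x y then 1 else 0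

theorem am_symm (W : SimpleGraph X) (x y : X) : am W x y = am W y x := by
  classical
  change (if W.Adj x y then (1 : ℝ) else 0) = if W.Adj y x then 1 else 0
  by_cases h : W.Adj x y
  · rw [if_pos h, if_pos h.symm]
  · rw [if_neg h, if_neg (fun h' => h h'.symm)]

/-- homomorphisms from a cycle -/
def homEquiv {Y : Type} (W : SimpleGraph Y) (k : ℕ) : (SimpleGraph.cycleGraph (k + 3) →g W) ≃
      {f : Fin (k + 3) → Y // ∀ i, W.Adj (f i) (f (i + 1))} :=
    { toFun := fun h => ⟨h, fun i => h.map_rel (by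
        rw [SimpleGraph.cycleGraph_adj]; right; simp)⟩
      invFun := fun f => ⟨f.1, by
        intro a b hab
        rw [SimpleGraph.cycleGraph_adj] at hab
        rcases hab with h | h
        · have : a = b + 1 := by rw [← h]; simp
          rw [this]
          exact (f.2 b).symm
        · have : b = a + 1 := by rw [← h]; simp
          rw [this]
          exact f.2 a⟩
      left_inv := fun h => rfl
      right_inv := fun f => rfl }

theorem card_hom (W : SimpleGraph X) (k : ℕ) :
    (Nat.card (SimpleGraph.cycleGraph (k + 3) →g W) : ℝ) = ((am W) ^ (k + 3)).trace := by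
  classical
  rw [Nat.card_congr (homEquiv W k), Nat.card_eq_fintype_card, Fintype.card_subtype, ← sum_cycle]
  rw [Finset.card_filter]
  push_cast
  refine Finset.sum_congr rfl fun f _ => ?_
  unfold am
  rw [Finset.prod_boole]
  simp

variable (W : SimpleGraph X)

/-- the number of closed walks -/
noncomputable def cw (k : ℕ) : ℝ := ((am W) ^ k).trace

theorem pow_symm (k : ℕ) (x y : X) : ((am W) ^ k) x y = ((am W) ^ k) y x := by
  have h1 : (am W)ᵀ = am W := by
    ext x y
    exact am_symm W y x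
  have h2 : ((am W) ^ k)ᵀ = (am W) ^ k := by
    rw [Matrix.transpose_pow, h1]
  exact congrFun (congrFun h2.symm x) y

theorem cw_add (a b : ℕ) : cw W (a + b) = ∑ p : X × X, ((am W) ^ a) p.1 p.2 * ((am W) ^ b) p.1 p.2 := by
  unfold cw
  rw [pow_add, Matrix.trace, Fintype.sum_prod_type]
  refine Finset.sum_congr rfl fun x _ => ?_
  rw [Matrix.diag_apply, Matrix.mul_apply]
  refine Finset.sum_congr rfl fun y _ => ?_
  rw [pow_symm W b y x]

theorem cw_cs (a b : ℕ) : cw W (a + b) ^ 2 ≤ cw W (2 * a) * cw W (2 * b) := by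
  rw [cw_add, two_mul a, two_mul b, cw_add W a a, cw_add W b b]
  have h := Finset.sum_mul_sq_le_sq_mul_sq (Finset.univ : Finset (X × X))
    (fun p => ((am W) ^ a) p.1 p.2) (fun p => ((am W) ^ b) p.1 p.2)
  simpa [sq] using h

/-- the number of walks -/
noncomputable def wk (k : ℕ) : ℝ := ∑ x, ∑ y, ((am W) ^ k) x y

theorem wk_add (a b : ℕ) : wk W (a + b) =
    ∑ z, (∑ x, ((am W) ^ a) z x) * (∑ y, ((am W) ^ b) z y) := by
  unfold wk
  have h1 : ∀ x, ∑ y, ((am W) ^ (a + b)) x y = ∑ z, ((am W) ^ a) z x * ∑ y, ((am W) ^ b) z y := by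
    intro x
    rw [pow_add]
    simp only [Matrix.mul_apply]
    rw [Finset.sum_comm]
    refine Finset.sum_congr rfl fun z _ => ?_
    rw [Finset.mul_sum]
    refine Finset.sum_congr rfl fun y _ => ?_
    rw [pow_symm W a x z]
  simp only [h1]
  rw [Finset.sum_comm]
  refine Finset.sum_congr rfl fun z _ => ?_
  rw [Finset.sum_mul]

theorem wk_cs (a b : ℕ) : wk W (a + b) ^ 2 ≤ wk W (2 * a) * wk W (2 * b) := by
  rw [wk_add, two_mul a, two_mul b, wk_add W a a, wk_add W b b]
  have h := Finset.sum_mul_sq_le_sq_mul_sq (Finset.univ : Finset X)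
    (fun z => ∑ x, ((am W) ^ a) z x) (fun z => ∑ x, ((am W) ^ b) z x)
  simpa [sq] using h

theorem cw_two : cw W 2 = wk W 1 := by
  have h := cw_add W 1 1
  rw [show (2 : ℕ) = 1 + 1 from rfl, h, Fintype.sum_prod_type]
  unfold wk
  refine Finset.sum_congr rfl fun x _ => Finset.sum_congr rfl fun y _ => ?_
  rw [pow_one]
  unfold am
  split_ifs <;> simp

theorem wk_zero : wk W 0 = Fintype.card X := by
  unfold wk
  simp [Matrix.one_apply]

theorem wk_le (k : ℕ) : wk W (2 * k) ≤ Fintype.card X * cw W (2 * k) := by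
  rw [two_mul, wk_add, cw_add, Fintype.sum_prod_type, Finset.mul_sum]
  refine Finset.sum_le_sum fun z _ => ?_
  have h := sq_sum_le_card_mul_sum_sq (s := (Finset.univ : Finset X))
    (f := fun y => ((am W) ^ k) z y)
  simpa [sq] using h

theorem am_nonneg (x y : X) : 0 ≤ am W x y := by
  unfold am
  split_ifs <;> norm_num

theorem wk_one_nonneg : 0 ≤ wk W 1 := by
  unfold wk
  rw [pow_one]
  exact Finset.sum_nonneg fun x _ => Finset.sum_nonneg fun y _ => am_nonneg W x y

/-- Blakley–Roy for even length -/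
theorem wk_even [Nonempty X] (he : 0 < wk W 1) (k : ℕ) : 0 < wk W (2 * k) ∧
    (wk W 1 / Fintype.card X) ^ 2 * wk W (2 * k) ≤ wk W (2 * (k + 1)) := by
  have hN : (0 : ℝ) < Fintype.card X := by exact_mod_cast Fintype.card_pos
  induction k with
  | zero =>
    rw [mul_zero, wk_zero]
    refine ⟨hN, ?_⟩
    have h := wk_cs W 0 1
    rw [mul_zero, wk_zero, zero_add] at h
    rw [zero_add, div_pow, div_mul_eq_mul_div, div_le_iff₀ (by positivity)]
    nlinarith
  | succ k ih =>
    obtain ⟨h1, h2⟩ := ih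
    have h3 : 0 < wk W (2 * (k + 1)) := lt_of_lt_of_le (by positivity) h2
    refine ⟨h3, ?_⟩
    have h4 := wk_cs W k (k + 2)
    rw [show k + (k + 2) = 2 * (k + 1) from by ring] at h4
    rw [show k + 1 + 1 = k + 2 from rfl]
    have h5 : (wk W 1 / Fintype.card X) ^ 2 * wk W (2 * k) * wk W (2 * (k + 1)) ≤
        wk W (2 * k) * wk W (2 * (k + 2)) := by
      refine le_trans ?_ h4
      rw [sq (wk W (2 * (k + 1)))]
      exact mul_le_mul_of_nonneg_right h2 h3.le
    have h6 : wk W (2 * k) * ((wk W 1 / Fintype.card X) ^ 2 * wk W (2 * (k + 1))) ≤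
        wk W (2 * k) * wk W (2 * (k + 2)) := by linarith
    exact le_of_mul_le_mul_left h6 h1

theorem wk_pow [Nonempty X] (he : 0 < wk W 1) (k : ℕ) :
    (wk W 1 / Fintype.card X) ^ (2 * k) * Fintype.card X ≤ wk W (2 * k) := by
  induction k with
  | zero => rw [mul_zero, wk_zero, pow_zero, one_mul]
  | succ k ih =>
    refine le_trans ?_ (wk_even W he k).2
    rw [mul_add, mul_one, pow_add, mul_assoc, mul_comm ((wk W 1 / Fintype.card X) ^ (2 * k)), mul_assoc]
    refine mul_le_mul_of_nonneg_left ?_ (by positivity)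
    rw [mul_comm]
    exact ih

/-- `t(C_{2k}) ≥ p^{2k}` before normalisation -/
theorem cw_pow [Nonempty X] (he : 0 < wk W 1) (k : ℕ) :
    (wk W 1 / Fintype.card X) ^ (2 * k) ≤ cw W (2 * k) := by
  have hN : (0 : ℝ) < Fintype.card X := by exact_mod_cast Fintype.card_pos
  have h1 := le_trans (wk_pow W he k) (wk_le W k)
  rw [mul_comm] at h1
  exact le_of_mul_le_mul_left h1 hN

/-- convex sequences -/
theorem conv_aux (l : ℕ → ℝ) (h : ∀ k, 1 ≤ k → 2 * l (k + 1) ≤ l k + l (k + 2)) (j : ℕ) (hj : 1 ≤ j) :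
    l j - l 1 ≤ ((j : ℝ) - 1) * (l (j + 1) - l j) ∧
    ∀ i, l (j + i) - l j ≥ (i : ℝ) * (l (j + 1) - l j) ∧
      l (j + i + 1) - l (j + i) ≥ l (j + 1) - l j := by
  constructor
  · induction j, hj using Nat.le_induction with
    | base => simp
    | succ j hj ih =>
      have h1 := h j hj
      have hj' : (1 : ℝ) ≤ j := by exact_mod_cast hj
      push_cast
      have h2 : l (j + 1) - l j ≤ l (j + 1 + 1) - l (j + 1) := by
        have : j + 1 + 1 = j + 2 := rfl
        rw [this]; linarith
      nlinarith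
  · intro i
    induction i with
    | zero => simp
    | succ i ih =>
      obtain ⟨h1, h2⟩ := ih
      have h3 := h (j + i) (by omega)
      have e1 : j + (i + 1) = j + i + 1 := rfl
      have e2 : j + i + 1 + 1 = j + i + 2 := rfl
      rw [e1, e2]
      push_cast
      constructor
      · nlinarith
      · linarith

theorem conv (l : ℕ → ℝ) (h : ∀ k, 1 ≤ k → 2 * l (k + 1) ≤ l k + l (k + 2)) (j K : ℕ) (hj : 1 ≤ j)
    (hK : j ≤ K) : ((K : ℝ) - 1) * l j ≤ ((K : ℝ) - j) * l 1 + ((j : ℝ) - 1) * l K := by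
  obtain ⟨i, rfl⟩ := Nat.exists_eq_add_of_le hK
  obtain ⟨h1, h2⟩ := conv_aux l h j hj
  have h3 := (h2 i).1
  push_cast
  have hj' : (1 : ℝ) ≤ j := by exact_mod_cast hj
  have hi : (0 : ℝ) ≤ i := Nat.cast_nonneg i
  have h4 : (i : ℝ) * (l j - l 1) ≤ (i : ℝ) * (((j : ℝ) - 1) * (l (j + 1) - l j)) :=
    mul_le_mul_of_nonneg_left h1 hi
  have h5 : ((j : ℝ) - 1) * ((i : ℝ) * (l (j + 1) - l j)) ≤ ((j : ℝ) - 1) * (l (j + i) - l j) :=
    mul_le_mul_of_nonneg_left h3 (by linarith)
  nlinarith

theorem cw_even_pos [Nonempty X] (he : 0 < wk W 1) (k : ℕ) : 0 < cw W (2 * k) := by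
  have hN : (0 : ℝ) < Fintype.card X := by exact_mod_cast Fintype.card_pos
  exact lt_of_lt_of_le (by positivity) (cw_pow W he k)

theorem cw_conv [Nonempty X] (he : 0 < wk W 1) (j K : ℕ) (hj : 1 ≤ j) (hK : j ≤ K) :
    ((K : ℝ) - 1) * Real.log (cw W (2 * j)) ≤
      ((K : ℝ) - j) * Real.log (cw W 2) + ((j : ℝ) - 1) * Real.log (cw W (2 * K)) := by
  have h := conv (fun k => Real.log (cw W (2 * k))) (fun k hk => by
    have h1 := cw_cs W k (k + 2)
    rw [show k + (k + 2) = 2 * (k + 1) from by ring] at h1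
    have h2 := Real.log_le_log (by have := cw_even_pos W he (k + 1); positivity) h1
    rw [Real.log_pow, Real.log_mul (cw_even_pos W he k).ne' (cw_even_pos W he (k + 2)).ne'] at h2
    exact_mod_cast h2) j K hj hK
  simpa using h

/-- the interpolation inequality, even `n = 2 K`, any `m` with `3 ≤ m < n` -/
theorem cw_interp [Nonempty X] (he : 0 < wk W 1) (m K : ℕ) (hm : 2 ≤ m) (hK : m ≤ 2 * K)
    (hc : 0 < cw W m) :
    (2 * (K : ℝ) - 2) * Real.log (cw W m) ≤
      (2 * (K : ℝ) - m) * Real.log (cw W 2) + ((m : ℝ) - 2) * Real.log (cw W (2 * K)) := by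
  rcases Nat.even_or_odd' m with ⟨j, rfl | rfl⟩
  · have h := cw_conv W he j K (by omega) (by omega)
    push_cast
    linarith
  · have h := cw_conv W he j K (by omega) (by omega)
    have h' := cw_conv W he (j + 1) K (by omega) (by omega)
    have h1 := cw_cs W j (j + 1)
    rw [show j + (j + 1) = 2 * j + 1 from by ring] at h1
    have h2 := Real.log_le_log (by positivity) h1
    rw [Real.log_pow, Real.log_mul (cw_even_pos W he j).ne' (cw_even_pos W he (j + 1)).ne'] at h2
    push_cast at h2 h' ⊢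
    have hK' : (1 : ℝ) ≤ K := by
      have : 1 ≤ K := by omega
      exact_mod_cast this
    have h3 := mul_le_mul_of_nonneg_left h2 (by linarith : (0 : ℝ) ≤ (K : ℝ) - 1)
    linarith

end Pool.Agent.H59.DE
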