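import Pool.Agent.H59.DE.Cyc

/-!
The graph of collinearity in `r` parallel classes of the affine plane over `ZMod q`.
-/

set_option autoImplicit false

namespace Pool.Agent.H59.DE

open Finset

theorem sol_det {F : Type} [Field F] {n : ℕ} (c : Fin (n + 1) → F) (f g : Fin (n + 1) → F × F)
    (hf : ∀ i, (f (i + 1)).2 - (f i).2 = c i * ((f (i + 1)).1 - (f i).1))
    (hg : ∀ i, (g (i + 1)).2 - (g i).2 = c i * ((g (i + 1)).1 - (g i).1))
    (h1 : ∀ i, (f i).1 = (g i).1) (h2 : (f 0).2 = (g 0).2) : f = g := by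
  have h3 : ∀ i : Fin (n + 1), (f i).2 = (g i).2 := by
    intro i
    induction i using Fin.induction with
    | zero => exact h2
    | succ i ih =>
      have a := hf i.castSucc
      have b := hg i.castSucc
      rw [Fin.coeSucc_eq_succ] at a b
      rw [h1, h1] at a
      linear_combination a - b + ih
  funext i
  exact Prod.ext (h1 i) (h3 i)

theorem sol_close {F : Type} [Field F] {n : ℕ} (c : Fin (n + 1) → F) (f : Fin (n + 1) → F × F)
    (hf : ∀ i, (f (i + 1)).2 - (f i).2 = c i * ((f (i + 1)).1 - (f i).1)) :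
    ∑ i, c i * ((f (i + 1)).1 - (f i).1) = 0 := by
  rw [← Finset.sum_congr rfl fun i _ => hf i, Finset.sum_sub_distrib]
  have h := Equiv.sum_comp (Equiv.addRight (1 : Fin (n + 1))) (fun i => (f i).2)
  simp only [Equiv.coe_addRight] at h
  rw [h, sub_self]

theorem sol_det' {F : Type} [Field F] {n : ℕ} (c : Fin (n + 1) → F) (f g : Fin (n + 1) → F × F)
    (hf : ∀ i, (f (i + 1)).2 - (f i).2 = c i * ((f (i + 1)).1 - (f i).1))
    (hg : ∀ i, (g (i + 1)).2 - (g i).2 = c i * ((g (i + 1)).1 - (g i).1)) (j : Fin (n + 1))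
    (hj : c j ≠ c (j + 1))
    (h1 : ∀ i, i ≠ j + 1 → (f i).1 = (g i).1) (h2 : (f 0).2 = (g 0).2) : f = g := by
  refine sol_det c f g hf hg ?_ h2
  have h3 := sol_close c f hf
  have h4 := sol_close c g hg
  have h5 : ∑ i, c i * ((f (i + 1)).1 - (g (i + 1)).1) - ∑ i, c i * ((f i).1 - (g i).1) = 0 := by
    rw [← Finset.sum_sub_distrib]
    have : ∀ i, c i * ((f (i + 1)).1 - (g (i + 1)).1) - c i * ((f i).1 - (g i).1) =
        c i * ((f (i + 1)).1 - (f i).1) - c i * ((g (i + 1)).1 - (g i).1) := fun i => by ring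
    rw [Finset.sum_congr rfl fun i _ => this i, Finset.sum_sub_distrib, h3, h4, sub_self]
  rw [Finset.sum_eq_single j, Finset.sum_eq_single (j + 1), ← sub_mul] at h5
  · intro i
    by_cases hi : i = j + 1
    · rw [hi]
      rcases mul_eq_zero.1 h5 with h6 | h6
      · exact absurd (sub_eq_zero.1 h6) hj
      · exact sub_eq_zero.1 h6
    · exact h1 i hi
  · intro i _ hi
    rw [h1 i hi, sub_self, mul_zero]
  · intro h; exact absurd (Finset.mem_univ _) h
  · intro i _ hi
    rw [h1 (i + 1) (fun h => hi (add_right_cancel h)), sub_self, mul_zero]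
  · intro h; exact absurd (Finset.mem_univ _) h

open Classical in
/-- solutions for a given pattern of slopes -/
noncomputable def Sol {F : Type} [Field F] [Fintype F] {n : ℕ} (c : Fin (n + 1) → F) :
    Finset (Fin (n + 1) → F × F) :=
  Finset.univ.filter fun f => ∀ i, (f (i + 1)).2 - (f i).2 = c i * ((f (i + 1)).1 - (f i).1)

theorem mem_Sol {F : Type} [Field F] [Fintype F] {n : ℕ} {c : Fin (n + 1) → F}
    {f : Fin (n + 1) → F × F} : f ∈ Sol c ↔
      ∀ i, (f (i + 1)).2 - (f i).2 = c i * ((f (i + 1)).1 - (f i).1) := by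
  classical
  unfold Sol
  rw [Finset.mem_filter]
  exact ⟨fun h => h.2, fun h => ⟨Finset.mem_univ _, h⟩⟩

theorem card_Sol {F : Type} [Field F] [Fintype F] {n : ℕ} (c : Fin (n + 1) → F) :
    (Sol c).card ≤ Fintype.card F ^ (n + 2) := by
  classical
  have h : (Sol c).card ≤ (Finset.univ : Finset (F × (Fin (n + 1) → F))).card := by
    refine Finset.card_le_card_of_injOn (fun f => ((f 0).2, fun i => (f i).1))
      (fun _ _ => Finset.mem_coe.2 (Finset.mem_univ _)) ?_
    intro f hf g hg hfg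
    have hf' := mem_Sol.1 (Finset.mem_coe.1 hf)
    have hg' := mem_Sol.1 (Finset.mem_coe.1 hg)
    have h1 := congrArg Prod.fst hfg
    have h2 := congrArg Prod.snd hfg
    exact sol_det c f g hf' hg' (fun i => congrFun h2 i) h1
  refine h.trans (le_of_eq ?_)
  rw [Finset.card_univ, Fintype.card_prod, Fintype.card_fun, Fintype.card_fin]
  ring

theorem card_Sol' {F : Type} [Field F] [Fintype F] {n : ℕ} (c : Fin (n + 1) → F) (j : Fin (n + 1))
    (hj : c j ≠ c (j + 1)) : (Sol c).card ≤ Fintype.card F ^ (n + 1) := by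
  classical
  have h : (Sol c).card ≤ (Finset.univ : Finset (F × ({i : Fin (n + 1) // i ≠ j + 1} → F))).card := by
    refine Finset.card_le_card_of_injOn (fun f => ((f 0).2, fun i => (f i.1).1))
      (fun _ _ => Finset.mem_coe.2 (Finset.mem_univ _)) ?_
    intro f hf g hg hfg
    have hf' := mem_Sol.1 (Finset.mem_coe.1 hf)
    have hg' := mem_Sol.1 (Finset.mem_coe.1 hg)
    have h1 := congrArg Prod.fst hfg
    have h2 := congrArg Prod.snd hfg
    exact sol_det' c f g hf' hg' j hj (fun i hi => congrFun h2 ⟨i, hi⟩) h1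
  refine h.trans (le_of_eq ?_)
  rw [Finset.card_univ, Fintype.card_prod, Fintype.card_fun, Fintype.card_subtype_compl,
    Fintype.card_fin, Fintype.card_subtype_eq]
  simp only [Nat.add_sub_cancel]
  ring

/-- the net graph -/
def net (q r : ℕ) : SimpleGraph (ZMod q × ZMod q) where
  Adj x y := x ≠ y ∧ ∃ j : Fin r, y.2 - x.2 = ((j : ℕ) : ZMod q) * (y.1 - x.1)
  symm := ⟨fun x y h => ⟨h.1.symm, h.2.choose, by linear_combination -h.2.choose_spec⟩⟩
  loopless := ⟨fun x h => h.1 rfl⟩

theorem net_adj {q r : ℕ} {x y : ZMod q × ZMod q} : (net q r).Adj x y ↔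
    x ≠ y ∧ ∃ j : Fin r, y.2 - x.2 = ((j : ℕ) : ZMod q) * (y.1 - x.1) := Iff.rfl

theorem cast_inj {q a b : ℕ} (ha : a < q) (hb : b < q) (h : (a : ZMod q) = b) : a = b := by
  rw [ZMod.natCast_eq_natCast_iff'] at h
  rwa [Nat.mod_eq_of_lt ha, Nat.mod_eq_of_lt hb] at h

theorem net_upper {q r : ℕ} (hq : q.Prime) (hr : r ≤ q) (k : ℕ) :
    Nat.card (SimpleGraph.cycleGraph (k + 3) →g net q r) ≤ r ^ (k + 3) * q ^ (k + 3) + r * q ^ (k + 4) := by
  classical
  haveI : Fact q.Prime := ⟨hq⟩
  rw [Nat.card_congr (homEquiv (net q r) k), Nat.card_eq_fintype_card, Fintype.card_subtype]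
  let S : (Fin (k + 3) → Fin r) → Finset (Fin (k + 3) → ZMod q × ZMod q) := fun c =>
    Sol (n := k + 2) (fun i => ((c i : ℕ) : ZMod q))
  have h1 : (Finset.univ.filter fun f : Fin (k + 3) → ZMod q × ZMod q =>
      ∀ i, (net q r).Adj (f i) (f (i + 1))) ⊆ Finset.univ.biUnion S := by
    intro f hf
    have hf' := (Finset.mem_filter.1 hf).2
    choose c hc using fun i => (net_adj.1 (hf' i)).2
    exact Finset.mem_biUnion.2 ⟨c, Finset.mem_univ _, mem_Sol.2 hc⟩
  refine (Finset.card_le_card h1).trans (Finset.card_biUnion_le.trans ?_)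
  have h2 : ∀ c : Fin (k + 3) → Fin r, (S c).card ≤
      q ^ (k + 3) + if (∀ j, c j = c (j + 1)) then q ^ (k + 4) else 0 := by
    intro c
    by_cases hc : ∀ j, c j = c (j + 1)
    · rw [if_pos hc]
      have := card_Sol (n := k + 2) (fun i => ((c i : ℕ) : ZMod q))
      rw [ZMod.card] at this
      exact this.trans (Nat.le_add_left _ _)
    · rw [if_neg hc]
      push Not at hc
      obtain ⟨j, hj⟩ := hc
      have := card_Sol' (n := k + 2) (fun i => ((c i : ℕ) : ZMod q)) j (fun h => hj (by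
        apply Fin.ext
        exact cast_inj (lt_of_lt_of_le (c j).2 hr) (lt_of_lt_of_le (c (j + 1)).2 hr) h))
      rw [ZMod.card] at this
      exact this
  refine (Finset.sum_le_sum fun c _ => h2 c).trans ?_
  rw [Finset.sum_add_distrib, Finset.sum_const, Finset.card_univ, Fintype.card_fun, Fintype.card_fin,
    Fintype.card_fin, smul_eq_mul, ← Finset.sum_filter, Finset.sum_const, smul_eq_mul]
  refine Nat.add_le_add_left (Nat.mul_le_mul_right _ ?_) _
  have h3 : (Finset.univ.filter fun c : Fin (k + 3) → Fin r => ∀ j, c j = c (j + 1)).card ≤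
      (Finset.univ : Finset (Fin r)).card := by
    refine Finset.card_le_card_of_injOn (fun c => c 0)
      (fun _ _ => Finset.mem_coe.2 (Finset.mem_univ _)) ?_
    intro c hc d hd hcd
    have hc' := (Finset.mem_filter.1 (Finset.mem_coe.1 hc)).2
    have hd' := (Finset.mem_filter.1 (Finset.mem_coe.1 hd)).2
    funext i
    induction i using Fin.induction with
    | zero => exact hcd
    | succ i ih =>
      rw [← Fin.coeSucc_eq_succ, ← hc', ← hd']
      exact ih
  rwa [Finset.card_univ, Fintype.card_fin] at h3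

theorem net_lower {q r : ℕ} (hq : q.Prime) (hr : r ≤ q) (k : ℕ) :
    r * q * (q / 3) ^ (k + 3) ≤ Nat.card (SimpleGraph.cycleGraph (k + 3) →g net q r) := by
  classical
  haveI : Fact q.Prime := ⟨hq⟩
  rw [Nat.card_congr (homEquiv (net q r) k)]
  let κ := SimpleGraph.cycleGraph.tricoloring (k + 3) (by omega)
  let u : (Fin (k + 3) → Fin (q / 3)) → Fin (k + 3) → ℕ := fun g i => 3 * (g i : ℕ) + (κ i : ℕ)
  have hu : ∀ g i, u g i < q := by
    intro g i
    have h1 := (g i).2
    have h2 := (κ i).2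
    simp only [u]
    omega
  have hκ : ∀ i : Fin (k + 3), κ i ≠ κ (i + 1) := fun i => κ.valid (by
    rw [SimpleGraph.cycleGraph_adj]; right; simp)
  have hne : ∀ g i, ((u g i : ℕ) : ZMod q) ≠ ((u g (i + 1) : ℕ) : ZMod q) := by
    intro g i h
    have h1 := cast_inj (hu g i) (hu g (i + 1)) h
    apply hκ i
    apply Fin.ext
    have h2 := (κ i).2
    have h3 := (κ (i + 1)).2
    simp only [u] at h1
    omega
  let F : Fin r × ZMod q × (Fin (k + 3) → Fin (q / 3)) →
      {f : Fin (k + 3) → ZMod q × ZMod q // ∀ i, (net q r).Adj (f i) (f (i + 1))} := fun p =>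
    ⟨fun i => (((u p.2.2 i : ℕ) : ZMod q), ((p.1 : ℕ) : ZMod q) * ((u p.2.2 i : ℕ) : ZMod q) + p.2.1),
      fun i => net_adj.2 ⟨fun h => hne p.2.2 i (congrArg Prod.fst h), p.1, by ring⟩⟩
  have hF : Function.Injective F := by
    rintro ⟨j, b, g⟩ ⟨j', b', g'⟩ h
    have h0 := Subtype.ext_iff.1 h
    have hu1 : ∀ i, u g i = u g' i := fun i =>
      cast_inj (hu g i) (hu g' i) (congrArg Prod.fst (congrFun h0 i))
    have hg : g = g' := by
      funext i
      apply Fin.ext
      have := hu1 i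
      simp only [u] at this
      omega
    subst hg
    have e0 : ((j : ℕ) : ZMod q) * ((u g 0 : ℕ) : ZMod q) + b =
        ((j' : ℕ) : ZMod q) * ((u g 0 : ℕ) : ZMod q) + b' := congrArg Prod.snd (congrFun h0 0)
    have e1 : ((j : ℕ) : ZMod q) * ((u g (0 + 1) : ℕ) : ZMod q) + b =
        ((j' : ℕ) : ZMod q) * ((u g (0 + 1) : ℕ) : ZMod q) + b' :=
      congrArg Prod.snd (congrFun h0 (0 + 1))
    have e2 : (((j : ℕ) : ZMod q) - ((j' : ℕ) : ZMod q)) *
        (((u g 0 : ℕ) : ZMod q) - ((u g (0 + 1) : ℕ) : ZMod q)) = 0 := by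
      linear_combination e0 - e1
    rcases mul_eq_zero.1 e2 with h3 | h3
    · have h4 := cast_inj (lt_of_lt_of_le j.2 hr) (lt_of_lt_of_le j'.2 hr) (sub_eq_zero.1 h3)
      have h5 : j = j' := Fin.ext h4
      subst h5
      have h6 : b = b' := by linear_combination e0
      rw [h6]
    · exact absurd (sub_eq_zero.1 h3) (hne g 0)
  have h := Nat.card_le_card_of_injective F hF
  refine le_trans (le_of_eq ?_) h
  rw [Nat.card_eq_fintype_card, Fintype.card_prod, Fintype.card_prod, Fintype.card_fun,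
    Fintype.card_fin, Fintype.card_fin, Fintype.card_fin, ZMod.card]
  ring

end Pool.Agent.H59.DE
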