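import Pool.Agent.H59.DE.Cyc

/-!
`hom(P_5)^7 ≤ |V|^2 hom(P_3)^10` by Gibbs inequalities.
-/

set_option autoImplicit false

namespace Pool.Agent.H59.DE

open Matrix Finset

theorem gibbs {ι : Type} [Fintype ι] (q F ℓ : ι → ℝ) (hq : ∀ i, 0 ≤ q i) (hF : ∀ i, 0 ≤ F i)
    (h : ∀ i, 0 < q i → 0 < F i ∧ ℓ i = Real.log (F i) - Real.log (q i)) (hQ : 0 < ∑ i, q i) :
    ∑ i, q i * ℓ i ≤ (∑ i, q i) * (Real.log (∑ i, F i) - Real.log (∑ i, q i)) := by
  obtain ⟨i0, -, hi0⟩ := Finset.exists_lt_of_sum_lt (s := (Finset.univ : Finset ι))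
    (f := fun _ => (0 : ℝ)) (g := q) (by simpa using hQ)
  have hΦ : 0 < ∑ i, F i := lt_of_lt_of_le (h i0 hi0).1
    (Finset.single_le_sum (f := F) (fun i _ => hF i) (Finset.mem_univ i0))
  set Q := ∑ i, q i with hQd
  set Φ := ∑ i, F i with hΦd
  have h1 : ∀ i, q i * (ℓ i - (Real.log Φ - Real.log Q)) ≤ F i * (Q / Φ) - q i := by
    intro i
    rcases (hq i).eq_or_lt with h0 | h0
    · rw [← h0, zero_mul, sub_zero]
      exact mul_nonneg (hF i) (div_pos hQ hΦ).le
    · obtain ⟨h2, h3⟩ := h i h0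
      have h4 : ℓ i - (Real.log Φ - Real.log Q) = Real.log (F i * Q / (q i * Φ)) := by
        rw [Real.log_div (by positivity) (by positivity), Real.log_mul h2.ne' hQ.ne',
          Real.log_mul h0.ne' hΦ.ne', h3]
        ring
      rw [h4]
      have h5 := Real.log_le_sub_one_of_pos (show 0 < F i * Q / (q i * Φ) by positivity)
      have h6 := mul_le_mul_of_nonneg_left h5 h0.le
      refine h6.trans (le_of_eq ?_)
      field_simp
  have h2 := Finset.sum_le_sum fun i (_ : i ∈ Finset.univ) => h1 i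
  rw [Finset.sum_sub_distrib, ← Finset.sum_mul, ← hΦd, ← hQd, mul_div_cancel₀ _ hΦ.ne', sub_self] at h2
  have h3 : ∑ i, q i * (ℓ i - (Real.log Φ - Real.log Q)) =
      ∑ i, q i * ℓ i - Q * (Real.log Φ - Real.log Q) := by
    rw [hQd, Finset.sum_mul, ← Finset.sum_sub_distrib]
    exact Finset.sum_congr rfl fun i _ => by ring
  rw [h3] at h2
  linarith

variable {X : Type} [Fintype X] [DecidableEq X] (W : SimpleGraph X)

/-- number of walks of length `k` from `x` -/
noncomputable def u (k : ℕ) (x : X) : ℝ := ∑ y, ((am W) ^ k) x y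

theorem u_zero (x : X) : u W 0 x = 1 := by
  unfold u
  simp [Matrix.one_apply]

theorem u_succ (k : ℕ) (x : X) : u W (k + 1) x = ∑ y, am W x y * u W k y := by
  unfold u
  rw [pow_succ']
  simp only [Matrix.mul_apply]
  rw [Finset.sum_comm]
  refine Finset.sum_congr rfl fun z _ => ?_
  rw [Finset.mul_sum]

theorem u_succ' (k : ℕ) (y : X) : ∑ x, am W x y * u W k x = u W (k + 1) y := by
  rw [u_succ]
  exact Finset.sum_congr rfl fun x _ => by rw [am_symm]

theorem u_nonneg (k : ℕ) (x : X) : 0 ≤ u W k x := by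
  induction k generalizing x with
  | zero => rw [u_zero]; norm_num
  | succ k ih =>
    rw [u_succ]
    exact Finset.sum_nonneg fun y _ => mul_nonneg (am_nonneg W x y) (ih y)

theorem am_cases (x y : X) : am W x y = 0 ∨ am W x y = 1 := by
  unfold am
  split_ifs
  · exact Or.inr rfl
  · exact Or.inl rfl

theorem u_pos_of_adj {x y : X} (h : 0 < am W x y) (k : ℕ) : 0 < u W k x := by
  induction k generalizing x y with
  | zero => rw [u_zero]; norm_num
  | succ k ih =>
    rw [u_succ]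
    have h' : 0 < am W y x := by rw [am_symm]; exact h
    exact lt_of_lt_of_le (mul_pos h (ih h')) (Finset.single_le_sum
      (f := fun y => am W x y * u W k y)
      (fun z _ => mul_nonneg (am_nonneg W x z) (u_nonneg W k z)) (Finset.mem_univ y))

theorem u_pos {k : ℕ} {x : X} (h : 0 < u W (k + 1) x) (j : ℕ) : 0 < u W j x := by
  rw [u_succ] at h
  obtain ⟨y, -, hy⟩ := Finset.exists_lt_of_sum_lt (s := (Finset.univ : Finset X))
    (f := fun _ => (0 : ℝ)) (g := fun y => am W x y * u W k y) (by simpa using h)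
  have h1 : 0 < am W x y := by
    rcases am_cases W x y with h2 | h2
    · rw [h2, zero_mul] at hy; exact absurd hy (lt_irrefl _)
    · rw [h2]; norm_num
  exact u_pos_of_adj W h1 j

theorem wk_eq (a b : ℕ) : wk W (a + b) = ∑ z, u W a z * u W b z := wk_add W a b

/-- sums over ordered edges -/
theorem sum_left (j : ℕ) (f : X → ℝ) :
    ∑ p : X × X, f p.1 * (am W p.1 p.2 * u W j p.2) = ∑ x, f x * u W (j + 1) x := by
  rw [Fintype.sum_prod_type]
  refine Finset.sum_congr rfl fun x _ => ?_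
  rw [u_succ, Finset.mul_sum]

theorem sum_right (i : ℕ) (f : X → ℝ) :
    ∑ p : X × X, f p.2 * (am W p.1 p.2 * u W i p.1) = ∑ y, f y * u W (i + 1) y := by
  rw [Fintype.sum_prod_type, Finset.sum_comm]
  refine Finset.sum_congr rfl fun y _ => ?_
  rw [← u_succ', Finset.mul_sum]

theorem main_ineq (h5 : 0 < wk W 5) :
    7 * Real.log (wk W 5) ≤ 2 * Real.log (Fintype.card X) + 10 * Real.log (wk W 3) := by
  have w14 : wk W 5 = ∑ z, u W 1 z * u W 4 z := wk_eq W 1 4
  have w23 : wk W 5 = ∑ z, u W 2 z * u W 3 z := wk_eq W 2 3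
  have w05 : wk W 5 = ∑ z, u W 5 z := by
    rw [show (5 : ℕ) = 0 + 5 from rfl, wk_eq W 0 5]
    simp [u_zero]
  have v03 : wk W 3 = ∑ z, u W 3 z := by
    rw [show (3 : ℕ) = 0 + 3 from rfl, wk_eq W 0 3]
    simp [u_zero]
  have v12 : wk W 3 = ∑ z, u W 1 z * u W 2 z := wk_eq W 1 2
  have un := u_nonneg W
  have an := am_nonneg W
  obtain ⟨L, hL⟩ : ∃ L : ℕ → X → ℝ, ∀ k x, L k x = Real.log (u W k x) := ⟨_, fun _ _ => rfl⟩
  -- G1
  have G1 := gibbs (fun x => u W 2 x * u W 3 x) (fun x => u W 3 x) (fun x => - L 2 x)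
    (fun x => mul_nonneg (un 2 x) (un 3 x)) (fun x => un 3 x) (fun x hx => by
      have h2 : 0 < u W 2 x := by
        rcases (un 2 x).eq_or_lt with h | h
        · rw [← h, zero_mul] at hx; exact absurd hx (lt_irrefl _)
        · exact h
      have h3 := u_pos W h2 3
      refine ⟨h3, ?_⟩
      rw [Real.log_mul h2.ne' h3.ne', hL]
      ring) (by rw [← w23]; exact h5)
  rw [← w23, ← v03] at G1
  -- G4
  have G4 := gibbs (fun x => u W 5 x) (fun _ => 1) (fun x => - L 5 x)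
    (fun x => un 5 x) (fun x => zero_le_one) (fun x hx => by
      refine ⟨one_pos, ?_⟩
      rw [Real.log_one, hL]
      ring) (by rw [← w05]; exact h5)
  rw [← w05, Finset.sum_const, Finset.card_univ, nsmul_eq_mul, mul_one] at G4
  -- G5
  have hpos : ∀ {a b : ℕ} {p : X × X}, 0 < u W a p.1 * (am W p.1 p.2 * u W b p.2) →
      am W p.1 p.2 = 1 ∧ (∀ k, 0 < u W k p.1) ∧ ∀ k, 0 < u W k p.2 := by
    intro a b p hp
    rcases am_cases W p.1 p.2 with h | h
    · rw [h, zero_mul, mul_zero] at hp; exact absurd hp (lt_irrefl _)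
    · refine ⟨h, fun k => u_pos_of_adj W (y := p.2) (by rw [h]; norm_num) k, fun k =>
        u_pos_of_adj W (y := p.1) (by rw [am_symm, h]; norm_num) k⟩
  have s13 : ∑ p : X × X, u W 1 p.1 * (am W p.1 p.2 * u W 3 p.2) = wk W 5 := by
    rw [sum_left W 3 (fun x => u W 1 x), w14]
  have s22 : ∑ p : X × X, u W 2 p.1 * (am W p.1 p.2 * u W 2 p.2) = wk W 5 := by
    rw [sum_left W 2 (fun x => u W 2 x), w23]
  have s04 : ∑ p : X × X, u W 0 p.1 * (am W p.1 p.2 * u W 4 p.2) = wk W 5 := by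
    rw [sum_left W 4 (fun x => u W 0 x), w05]
    simp [u_zero]
  have s11 : ∑ p : X × X, u W 1 p.1 * (am W p.1 p.2 * u W 1 p.2) = wk W 3 := by
    rw [sum_left W 1 (fun x => u W 1 x), v12]
  have prod2 : ∀ f g : X → ℝ, ∑ p : X × X, f p.1 * g p.2 = (∑ x, f x) * ∑ y, g y := by
    intro f g
    rw [Fintype.sum_prod_type, Finset.sum_mul_sum]
  have G5 := gibbs (fun p : X × X => u W 1 p.1 * (am W p.1 p.2 * u W 3 p.2))
    (fun p => (u W 1 p.1 * u W 4 p.1) * (u W 2 p.2 * u W 3 p.2)) (fun p => L 4 p.1 + L 2 p.2)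
    (fun p => mul_nonneg (un 1 _) (mul_nonneg (an _ _) (un 3 _)))
    (fun p => mul_nonneg (mul_nonneg (un 1 _) (un 4 _)) (mul_nonneg (un 2 _) (un 3 _)))
    (fun p hp => by
      obtain ⟨e, hx, hy⟩ := hpos hp
      have x1 := hx 1; have x4 := hx 4; have y2 := hy 2; have y3 := hy 3
      refine ⟨by positivity, ?_⟩
      rw [e, one_mul, Real.log_mul (by positivity) (by positivity), Real.log_mul x1.ne' x4.ne',
        Real.log_mul y2.ne' y3.ne', Real.log_mul x1.ne' y3.ne', hL, hL]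
      ring) (by rw [s13]; exact h5)
  rw [s13, prod2 (fun x => u W 1 x * u W 4 x) (fun y => u W 2 y * u W 3 y), ← w14, ← w23,
    Real.log_mul h5.ne' h5.ne'] at G5
  -- G6
  have G6 := gibbs (fun p : X × X => u W 2 p.1 * (am W p.1 p.2 * u W 2 p.2))
    (fun p => (u W 2 p.1 * u W 3 p.1) * (u W 2 p.2 * u W 3 p.2)) (fun p => L 3 p.1 + L 3 p.2)
    (fun p => mul_nonneg (un 2 _) (mul_nonneg (an _ _) (un 2 _)))
    (fun p => mul_nonneg (mul_nonneg (un 2 _) (un 3 _)) (mul_nonneg (un 2 _) (un 3 _)))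
    (fun p hp => by
      obtain ⟨e, hx, hy⟩ := hpos hp
      have x2 := hx 2; have x3 := hx 3; have y2 := hy 2; have y3 := hy 3
      refine ⟨by positivity, ?_⟩
      rw [e, one_mul, Real.log_mul (by positivity) (by positivity), Real.log_mul x2.ne' x3.ne',
        Real.log_mul y2.ne' y3.ne', Real.log_mul x2.ne' y2.ne', hL, hL]
      ring) (by rw [s22]; exact h5)
  rw [s22, prod2 (fun x => u W 2 x * u W 3 x) (fun y => u W 2 y * u W 3 y), ← w23,
    Real.log_mul h5.ne' h5.ne'] at G6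
  -- G2a
  have G2a := gibbs (fun p : X × X => u W 1 p.1 * (am W p.1 p.2 * u W 3 p.2))
    (fun p => u W 1 p.1 * (am W p.1 p.2 * u W 1 p.2)) (fun p => L 1 p.2 - L 3 p.2)
    (fun p => mul_nonneg (un 1 _) (mul_nonneg (an _ _) (un 3 _)))
    (fun p => mul_nonneg (un 1 _) (mul_nonneg (an _ _) (un 1 _)))
    (fun p hp => by
      obtain ⟨e, hx, hy⟩ := hpos hp
      have x1 := hx 1; have y1 := hy 1; have y3 := hy 3
      refine ⟨by rw [e]; positivity, ?_⟩
      rw [e, one_mul, one_mul, Real.log_mul x1.ne' y1.ne', Real.log_mul x1.ne' y3.ne', hL, hL]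
      ring) (by rw [s13]; exact h5)
  rw [s13, s11] at G2a
  -- the sum for the conditional inequalities
  have hdiv : ∀ f : X → ℝ, (∀ y, u W 1 y = 0 → f y = 0) →
      ∑ p : X × X, am W p.1 p.2 * (f p.2 / u W 1 p.2) = ∑ y, f y := by
    intro f hf
    rw [Fintype.sum_prod_type, Finset.sum_comm]
    refine Finset.sum_congr rfl fun y _ => ?_
    have h1 : ∑ x, am W x y = u W 1 y := by
      have := u_succ' W 0 y
      simp only [u_zero, mul_one] at this
      exact this
    have h2 : ∑ x, am W x y * (f y / u W 1 y) = (∑ x, am W x y) * (f y / u W 1 y) :=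
      (Finset.sum_mul _ _ _).symm
    refine h2.trans ?_
    rw [h1]
    by_cases h0 : u W 1 y = 0
    · rw [h0, hf y h0, zero_mul]
    · field_simp
  have hz : ∀ (k : ℕ) (y : X), u W 1 y = 0 → u W (k + 1) y = 0 := by
    intro k y h0
    by_contra hne
    have := u_pos W (lt_of_le_of_ne (un (k + 1) y) (Ne.symm hne)) 1
    rw [h0] at this
    exact lt_irrefl _ this
  have G2b := gibbs (fun p : X × X => u W 1 p.1 * (am W p.1 p.2 * u W 3 p.2))
    (fun p => am W p.1 p.2 * ((u W 2 p.2 * u W 3 p.2) / u W 1 p.2))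
    (fun p => L 2 p.2 - L 1 p.2 - L 1 p.1)
    (fun p => mul_nonneg (un 1 _) (mul_nonneg (an _ _) (un 3 _)))
    (fun p => mul_nonneg (an _ _) (div_nonneg (mul_nonneg (un 2 _) (un 3 _)) (un 1 _)))
    (fun p hp => by
      obtain ⟨e, hx, hy⟩ := hpos hp
      have x1 := hx 1; have y1 := hy 1; have y2 := hy 2; have y3 := hy 3
      refine ⟨by rw [e]; positivity, ?_⟩
      rw [e, one_mul, one_mul, Real.log_div (by positivity) y1.ne', Real.log_mul y2.ne' y3.ne',
        Real.log_mul x1.ne' y3.ne', hL, hL, hL]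
      ring) (by rw [s13]; exact h5)
  rw [s13, hdiv (fun y => u W 2 y * u W 3 y) (fun y h0 => by rw [hz 1 y h0, zero_mul]), ← w23,
    sub_self, mul_zero] at G2b
  -- G3a
  have G3a := gibbs (fun p : X × X => u W 0 p.1 * (am W p.1 p.2 * u W 4 p.2))
    (fun p => u W 1 p.1 * (am W p.1 p.2 * u W 1 p.2)) (fun p => L 1 p.1 + L 1 p.2 - L 4 p.2)
    (fun p => mul_nonneg (un 0 _) (mul_nonneg (an _ _) (un 4 _)))
    (fun p => mul_nonneg (un 1 _) (mul_nonneg (an _ _) (un 1 _)))
    (fun p hp => by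
      obtain ⟨e, hx, hy⟩ := hpos hp
      have x1 := hx 1; have y1 := hy 1; have y4 := hy 4
      refine ⟨by rw [e]; positivity, ?_⟩
      rw [e, u_zero, one_mul, one_mul, one_mul, Real.log_mul x1.ne' y1.ne', hL, hL, hL]) (by rw [s04]; exact h5)
  rw [s04, s11] at G3a
  -- G3b
  have hdiv' : ∑ p : X × X, am W p.1 p.2 * (u W 5 p.1 / u W 1 p.1) = wk W 5 := by
    rw [w05, ← hdiv (fun y => u W 5 y) (fun y h0 => hz 4 y h0)]
    rw [Fintype.sum_prod_type, Fintype.sum_prod_type, Finset.sum_comm]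
    refine Finset.sum_congr rfl fun y _ => Finset.sum_congr rfl fun x _ => ?_
    rw [am_symm]
  have G3b := gibbs (fun p : X × X => u W 0 p.1 * (am W p.1 p.2 * u W 4 p.2))
    (fun p => am W p.1 p.2 * (u W 5 p.1 / u W 1 p.1))
    (fun p => L 5 p.1 - L 1 p.1 - L 4 p.2)
    (fun p => mul_nonneg (un 0 _) (mul_nonneg (an _ _) (un 4 _)))
    (fun p => mul_nonneg (an _ _) (div_nonneg (un 5 _) (un 1 _)))
    (fun p hp => by
      obtain ⟨e, hx, hy⟩ := hpos hp
      have x1 := hx 1; have x5 := hx 5; have y4 := hy 4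
      refine ⟨by rw [e]; positivity, ?_⟩
      rw [e, u_zero, one_mul, one_mul, one_mul, Real.log_div x5.ne' x1.ne', hL, hL, hL]) (by rw [s04]; exact h5)
  rw [s04, hdiv', sub_self, mul_zero] at G3b
  -- evaluate the sums
  set a1 := ∑ x, L 1 x * u W 1 x * u W 4 x with ha1
  set a4 := ∑ x, L 4 x * u W 1 x * u W 4 x with ha4
  set b2 := ∑ x, L 2 x * u W 3 x * u W 2 x with hb2
  set b3 := ∑ x, L 3 x * u W 3 x * u W 2 x with hb3
  set c1 := ∑ x, L 1 x * u W 3 x * u W 2 x with hc1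
  set f1 := ∑ x, L 1 x * u W 5 x with hf1
  set g5 := ∑ x, L 5 x * u W 5 x with hg5
  have E1 : ∑ x, u W 2 x * u W 3 x * -L 2 x = -b2 := by
    rw [hb2, ← Finset.sum_neg_distrib]
    exact Finset.sum_congr rfl fun x _ => by ring
  have E4 : ∑ x, u W 5 x * -L 5 x = -g5 := by
    rw [hg5, ← Finset.sum_neg_distrib]
    exact Finset.sum_congr rfl fun x _ => by ring
  -- general evaluation: left and right functions
  have EL : ∀ (i j : ℕ) (f : X → ℝ), ∑ p : X × X, u W i p.1 * (am W p.1 p.2 * u W j p.2) * f p.1 =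
      ∑ x, f x * u W i x * u W (j + 1) x := by
    intro i j f
    rw [← sum_left W j (fun x => f x * u W i x)]
    exact Finset.sum_congr rfl fun p _ => by ring
  have ER : ∀ (i j : ℕ) (f : X → ℝ), ∑ p : X × X, u W i p.1 * (am W p.1 p.2 * u W j p.2) * f p.2 =
      ∑ x, f x * u W j x * u W (i + 1) x := by
    intro i j f
    rw [← sum_right W i (fun x => f x * u W j x)]
    exact Finset.sum_congr rfl fun p _ => by ring
  have E5 : ∑ p : X × X, u W 1 p.1 * (am W p.1 p.2 * u W 3 p.2) * (L 4 p.1 + L 2 p.2) = a4 + b2 := by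
    simp only [mul_add, Finset.sum_add_distrib]
    rw [EL 1 3 (L 4), ER 1 3 (L 2)]
  have E6 : ∑ p : X × X, u W 2 p.1 * (am W p.1 p.2 * u W 2 p.2) * (L 3 p.1 + L 3 p.2) = 2 * b3 := by
    simp only [mul_add, Finset.sum_add_distrib]
    rw [EL 2 2 (L 3), ER 2 2 (L 3), hb3, two_mul]
    congr 1 <;> exact Finset.sum_congr rfl fun x _ => by ring
  have E2a : ∑ p : X × X, u W 1 p.1 * (am W p.1 p.2 * u W 3 p.2) * (L 1 p.2 - L 3 p.2) = c1 - b3 := by
    simp only [mul_sub, Finset.sum_sub_distrib]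
    rw [ER 1 3 (L 1), ER 1 3 (L 3)]
  have E2b : ∑ p : X × X, u W 1 p.1 * (am W p.1 p.2 * u W 3 p.2) * (L 2 p.2 - L 1 p.2 - L 1 p.1) =
      b2 - c1 - a1 := by
    simp only [mul_sub, Finset.sum_sub_distrib]
    rw [ER 1 3 (L 2), ER 1 3 (L 1), EL 1 3 (L 1)]
  have E3a : ∑ p : X × X, u W 0 p.1 * (am W p.1 p.2 * u W 4 p.2) * (L 1 p.1 + L 1 p.2 - L 4 p.2) =
      f1 + a1 - a4 := by
    simp only [mul_sub, mul_add, Finset.sum_sub_distrib, Finset.sum_add_distrib]
    rw [EL 0 4 (L 1), ER 0 4 (L 1), ER 0 4 (L 4)]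
    congr 1
    · congr 1
      · rw [hf1]
        exact Finset.sum_congr rfl fun x _ => by rw [u_zero, mul_one]
      · exact Finset.sum_congr rfl fun x _ => by ring
    · exact Finset.sum_congr rfl fun x _ => by ring
  have E3b : ∑ p : X × X, u W 0 p.1 * (am W p.1 p.2 * u W 4 p.2) * (L 5 p.1 - L 1 p.1 - L 4 p.2) =
      g5 - f1 - a4 := by
    simp only [mul_sub, Finset.sum_sub_distrib]
    rw [EL 0 4 (L 5), EL 0 4 (L 1), ER 0 4 (L 4)]
    congr 1
    · congr 1 <;> exact Finset.sum_congr rfl fun x _ => by rw [u_zero, mul_one]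
    · exact Finset.sum_congr rfl fun x _ => by ring
  rw [E1] at G1
  rw [E4] at G4
  rw [E5] at G5
  rw [E6] at G6
  rw [E2a] at G2a
  rw [E2b] at G2b
  rw [E3a] at G3a
  rw [E3b] at G3b
  have hfin : 0 ≤ wk W 5 * (2 * Real.log (Fintype.card X) + 10 * Real.log (wk W 3) -
      7 * Real.log (wk W 5)) := by linarith
  have := nonneg_of_mul_nonneg_right hfin h5
  linarith

end Pool.Agent.H59.DE
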